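import Mathlib

set_option autoImplicit false

open Set Topology Filter

namespace Pool.Agent.Results.MP_ebea7e_gt.ClosedSubgroup

/-- `X` has the `k_ℝ` property: real functions continuous on compact sets are continuous. -/
def IsKR (X : Type) [TopologicalSpace X] : Prop :=
  ∀ f : X → ℝ, (∀ K : Set X, IsCompact K → ContinuousOn f K) → Continuous f

/-- Any power of a discrete space has the `k_ℝ` property. -/
lemma isKR_pi (I D : Type) [TopologicalSpace D] [DiscreteTopology D] : IsKR (I → D) := by
  classical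
  intro f hf
  rw [continuous_iff_continuousAt]
  intro x
  by_contra hx
  obtain ⟨ε, hε, hbad⟩ : ∃ ε > 0, ∀ U ∈ 𝓝 x, ∃ y ∈ U, ε < dist (f y) (f x) := by
    rw [ContinuousAt, Metric.tendsto_nhds] at hx
    push Not at hx
    obtain ⟨ε, hε, h⟩ := hx
    refine ⟨ε / 2, by linarith, fun U hU => ?_⟩
    obtain ⟨y, h1, h2⟩ := (h.and_eventually hU).exists
    exact ⟨y, h2, by linarith⟩
  have h1 : ∀ F : Finset I, ∃ (E : Finset I) (y : I → D), Disjoint E F ∧
      (∀ i, i ∉ E → y i = x i) ∧ ε < dist (f y) (f x) := by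
    intro F
    have hU : {y : I → D | ∀ i ∈ F, y i = x i} ∈ 𝓝 x := by
      have : ∀ᶠ y : I → D in 𝓝 x, ∀ i ∈ F, y i = x i := by
        rw [eventually_all_finset]
        intro i _
        have hc : Continuous fun y : I → D => y i := continuous_apply i
        exact ((isOpen_discrete {x i}).preimage hc).mem_nhds rfl
      exact this
    obtain ⟨y, hy, hyε⟩ := hbad _ hU
    have hK : IsCompact (Set.pi univ fun i => ({x i, y i} : Set D)) :=
      isCompact_univ_pi fun i => (toFinite _).isCompact
    have hc := hf _ hK y (fun i _ => Or.inr rfl)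
    have ht : Tendsto (fun E : Finset I => fun i => if i ∈ E then y i else x i) atTop
        (𝓝[Set.pi univ fun i => ({x i, y i} : Set D)] y) := by
      refine tendsto_nhdsWithin_iff.2 ⟨tendsto_pi_nhds.2 fun i => ?_, Eventually.of_forall ?_⟩
      · refine tendsto_const_nhds.congr' ?_
        filter_upwards [eventually_ge_atTop ({i} : Finset I)] with E hE
        rw [if_pos (hE (Finset.mem_singleton_self i))]
      · intro E i _
        by_cases h : i ∈ E <;> simp [h]
    have h2 := (hc.tendsto.comp ht).dist (tendsto_const_nhds (x := f x))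
    obtain ⟨E, hE⟩ := (h2.eventually (lt_mem_nhds hyε)).exists
    refine ⟨E \ F, fun i => if i ∈ E then y i else x i, Finset.sdiff_disjoint, fun i hi => ?_, hE⟩
    by_cases h : i ∈ E
    · have hF : i ∈ F := by
        by_contra hF
        exact hi (Finset.mem_sdiff.2 ⟨h, hF⟩)
      simp only [h, if_true]
      exact hy i hF
    · simp [h]
  choose E y hE hy hyε using h1
  obtain ⟨F, hF0, hFs⟩ : ∃ F : ℕ → Finset I, F 0 = ∅ ∧ ∀ n, F (n + 1) = F n ∪ E (F n) :=
    ⟨fun n => Nat.rec ∅ (fun _ G => G ∪ E G) n, rfl, fun _ => rfl⟩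
  have hmono : Monotone F := monotone_nat_of_le_succ fun n => by
    rw [hFs]; exact Finset.subset_union_left
  have ht : Tendsto (fun n => y (F n)) atTop (𝓝 x) := by
    refine tendsto_pi_nhds.2 fun i => tendsto_const_nhds.congr' ?_
    by_cases h : ∃ n, i ∈ F n
    · obtain ⟨n, hn⟩ := h
      filter_upwards [eventually_ge_atTop n] with m hm
      exact (hy _ i fun hi => Finset.disjoint_left.1 (hE _) hi (hmono hm hn)).symm
    · refine Eventually.of_forall fun m => (hy _ i fun hi => h ⟨m + 1, ?_⟩).symm
      rw [hFs]; exact Finset.mem_union_right _ hi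
  have hc := hf _ ht.isCompact_insert_range x (mem_insert _ _)
  have ht' : Tendsto (fun n => y (F n)) atTop (𝓝[insert x (range fun n => y (F n))] x) :=
    tendsto_nhdsWithin_iff.2 ⟨ht, Eventually.of_forall fun n => Or.inr ⟨n, rfl⟩⟩
  have h2 := (hc.tendsto.comp ht').dist (tendsto_const_nhds (x := f x))
  rw [dist_self] at h2
  obtain ⟨n, hn⟩ := (h2.eventually (gt_mem_nhds hε)).exists
  exact absurd (hyε (F n)) (not_lt.2 hn.le)

/-- Finitely supported integer functions on `ℝ`, as a discrete group. -/
def D : Type := ℝ →₀ ℤ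

noncomputable instance : AddCommGroup D := inferInstanceAs (AddCommGroup (ℝ →₀ ℤ))
instance : TopologicalSpace D := ⊥
instance : DiscreteTopology D := ⟨rfl⟩
instance : IsTopologicalAddGroup D where
  continuous_add := continuous_of_discreteTopology
  continuous_neg := continuous_of_discreteTopology

/-- evaluation -/
def ev (d : D) (r : ℝ) : ℤ := (show ℝ →₀ ℤ from d) r

lemma ev_add (d e : D) (r : ℝ) : ev (d + e) r = ev d r + ev e r := rfl
lemma ev_neg (d : D) (r : ℝ) : ev (-d) r = -ev d r := rfl
lemma ev_zero (r : ℝ) : ev 0 r = 0 := rfl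
lemma ev_ext {d e : D} (h : ∀ r, ev d r = ev e r) : d = e := Finsupp.ext h
lemma ev_fin (d : D) : {r | ev d r ≠ 0}.Finite := (show ℝ →₀ ℤ from d).finite_support

/-- Countable sets of reals. -/
abbrev I : Type := {A : Set ℝ // A.Countable}

/-- a singleton index -/
def sg (r : ℝ) : I := ⟨{r}, countable_singleton r⟩

/-- The closed subgroup of coherent threads. -/
def H : AddSubgroup (I → D) where
  carrier := {g | ∀ (A : I) (r : ℝ), (r ∈ A.1 → ev (g A) r = ev (g (sg r)) r) ∧
    (r ∉ A.1 → ev (g A) r = 0)}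
  zero_mem' := fun _ _ => ⟨fun _ => rfl, fun _ => rfl⟩
  add_mem' := by
    intro g h hg hh A r
    simp only [Pi.add_apply, ev_add]
    exact ⟨fun hr => by rw [(hg A r).1 hr, (hh A r).1 hr],
      fun hr => by rw [(hg A r).2 hr, (hh A r).2 hr]; rfl⟩
  neg_mem' := by
    intro g hg A r
    simp only [Pi.neg_apply, ev_neg]
    exact ⟨fun hr => by rw [(hg A r).1 hr], fun hr => by rw [(hg A r).2 hr]; rfl⟩

lemma isClosed_H : IsClosed (H : Set (I → D)) := by
  have hc : ∀ (A : I) (r : ℝ), Continuous fun g : I → D => ev (g A) r := fun A r =>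
    (continuous_of_discreteTopology (f := fun d : D => ev d r)).comp (continuous_apply A)
  have : (H : Set (I → D)) = ⋂ (A : I), ⋂ (r : ℝ),
      ((⋂ (_ : r ∈ A.1), {g | ev (g A) r = ev (g (sg r)) r}) ∩
        ⋂ (_ : r ∉ A.1), {g | ev (g A) r = 0}) := by
    ext g
    simp only [mem_iInter, mem_inter_iff, mem_setOf_eq]
    rfl
  rw [this]
  refine isClosed_iInter fun A => isClosed_iInter fun r => IsClosed.inter ?_ ?_
  · exact isClosed_iInter fun _ => isClosed_eq (hc _ _) (hc _ _)
  · exact isClosed_iInter fun _ => isClosed_eq (hc _ _) continuous_const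

lemma not_isKR_H : ¬ IsKR H := by
  classical
  intro h
  have hc : ∀ A : I, Continuous fun g : H => g.1 A := fun A =>
    (continuous_apply A).comp continuous_subtype_val
  have hf := h (fun g => if g = 0 then 1 else 0) fun K hK => by
    have hT : {r | ∃ g ∈ K, ev (g.1 (sg r)) r ≠ 0}.Finite := by
      by_contra hinf
      obtain ⟨C, hCT, hCc, hCi⟩ := Set.Infinite.exists_subset_countable_infinite hinf
      have h1 : ((fun g : H => g.1 ⟨C, hCc⟩) '' K).Finite :=
        (hK.image (hc _)).finite_of_discrete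
      refine hCi ((h1.biUnion fun d _ => ev_fin d).subset fun r hr => ?_)
      obtain ⟨g, hg, hne⟩ := hCT hr
      refine mem_biUnion (mem_image_of_mem _ hg) ?_
      show ev (g.1 ⟨C, hCc⟩) r ≠ 0
      rw [(g.2 ⟨C, hCc⟩ r).1 hr]
      exact hne
    let T : I := ⟨_, hT.countable⟩
    have h2 : ∀ g ∈ K, (g = 0 ↔ g.1 T = 0) := by
      intro g hg
      refine ⟨fun h => by rw [h]; rfl, fun h0 => Subtype.ext (funext fun A => ev_ext fun r => ?_)⟩
      show ev (g.1 A) r = 0
      by_cases hr : r ∈ A.1
      · rw [(g.2 A r).1 hr]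
        by_contra hne
        have := (g.2 T r).1 ⟨g, hg, hne⟩
        rw [h0] at this
        exact hne this.symm
      · exact (g.2 A r).2 hr
    have h3 : Continuous fun g : H => if g.1 T = 0 then (1 : ℝ) else 0 :=
      (continuous_of_discreteTopology (f := fun d : D => if d = 0 then (1 : ℝ) else 0)).comp (hc T)
    refine h3.continuousOn.congr fun g hg => ?_
    simp only [h2 g hg]
  have hop : IsOpen {g : H | (0 : ℝ) < if g = 0 then 1 else 0} := isOpen_lt continuous_const hf
  obtain ⟨U, hU, hUe⟩ := isOpen_induced_iff.1 hop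
  have h0 : (0 : I → D) ∈ U := by
    have : (0 : H) ∈ Subtype.val ⁻¹' U := by rw [hUe]; simp
    exact this
  obtain ⟨F, v, hv, hFU⟩ := isOpen_pi_iff.1 hU _ h0
  obtain ⟨r, hr⟩ : ∃ r : ℝ, r ∉ ⋃ A ∈ F, A.1 := by
    by_contra hcon
    push Not at hcon
    have h1 : (⋃ A ∈ F, A.1).Countable := F.countable_toSet.biUnion fun A _ => A.2
    exact Cardinal.not_countable_real (h1.mono fun r _ => hcon r)
  let δ : D := Finsupp.single r (1 : ℤ)
  have hδ : ∀ s, ev δ s = if r = s then 1 else 0 := fun s => Finsupp.single_apply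
  let g : I → D := fun A => if r ∈ A.1 then δ else 0
  have hg : g ∈ H := by
    intro A s
    by_cases hs : r = s
    · subst hs
      constructor
      · intro h1
        simp [g, h1, sg]
      · intro h1
        simp [g, h1, ev_zero]
    · have h1 : ∀ B : I, ev (g B) s = 0 := by
        intro B
        by_cases hB : r ∈ B.1
        · simp [g, hB, hδ, hs]
        · simp [g, hB, ev_zero]
      exact ⟨fun _ => by rw [h1, h1], fun _ => h1 A⟩
  have hgU : g ∈ U := hFU fun A hA => by
    have : g A = 0 := if_neg fun h => hr (mem_biUnion hA h)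
    rw [this]; exact (hv A hA).2
  have h4 : (⟨g, hg⟩ : H) ∈ Subtype.val ⁻¹' U := hgU
  rw [hUe] at h4
  have h5 : (⟨g, hg⟩ : H) = 0 := by
    by_contra hne
    simp [hne] at h4
  have h6 : ev (g (sg r)) r = 0 := by
    have : g = 0 := congrArg Subtype.val h5
    rw [this]; rfl
  simp [g, sg, hδ] at h6

/-- A Tychonoff abelian topological group with the `k_ℝ` property and a closed subgroup
without it. -/
theorem result :
    ∃ (G : Type) (_ : AddCommGroup G) (_ : TopologicalSpace G),
      IsTopologicalAddGroup G ∧ T35Space G ∧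
      (∀ f : G → ℝ, (∀ K : Set G, IsCompact K → ContinuousOn f K) → Continuous f) ∧
      ∃ H : AddSubgroup G, IsClosed (H : Set G) ∧
        ∃ f : H → ℝ, (∀ K : Set H, IsCompact K → ContinuousOn f K) ∧ ¬ Continuous f := by
  refine ⟨I → D, inferInstance, inferInstance, inferInstance, inferInstance, isKR_pi I D,
    H, isClosed_H, ?_⟩
  have := not_isKR_H
  unfold IsKR at this
  push Not at this
  exact this

end Pool.Agent.Results.MP_ebea7e_gt.ClosedSubgroup
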